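import Pool.Agent.TH468.GL.Main

/-! Final forms: arbitrary groups, minimum degree, number of edges. -/

set_option autoImplicit false

open Finset

namespace Pool.Agent.TH468.GL

open Pool.Agent.H268R2.LB

/-- `K(N, R) = (2 (N - 1) N ^ 2) ^ size R`, a polynomial bound in `R` for fixed `N`. -/
def KK (N R : ℕ) : ℕ := (2 * (N - 1) * N ^ 2) ^ (Nat.size R)

section

variable {V : Type} {G : SimpleGraph V} {A : Type} [Group A] [MulAction A V]

theorem orbitRel_range_eq :
    MulAction.orbitRel (MulAction.toPermHom A V).range V = MulAction.orbitRel A V := by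
  ext x y
  rw [MulAction.orbitRel_apply, MulAction.orbitRel_apply, MulAction.mem_orbit_iff,
    MulAction.mem_orbit_iff]
  constructor
  · rintro ⟨⟨_, a, rfl⟩, h⟩
    exact ⟨a, h⟩
  · rintro ⟨a, h⟩
    exact ⟨⟨_, a, rfl⟩, h⟩

theorem altLaw_range {N L : ℕ} (law : AltLaw A N L) :
    AltLaw (MulAction.toPermHom A V).range N L := by
  obtain ⟨hL, i, hi, hlaw⟩ := law
  refine ⟨hL, i, hi, fun g => ?_⟩
  choose b hb using fun k => (g k).2
  have hg : g = fun k => (MulAction.toPermHom A V).rangeRestrict (b k) := by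
    funext k
    apply Subtype.ext
    exact (hb k).symm
  have h1 := congrArg (MulAction.toPermHom A V).rangeRestrict (hlaw b)
  rw [map_one, map_list_prod, List.map_map] at h1
  rw [← h1, hg]
  congr 1
  refine List.map_congr_left fun j _ => ?_
  simp

/-- The count for groups that need not be finite. -/
theorem main_count' [Finite V] {M : ℕ}
    (hg : ∀ (v : V) (p : G.Walk v v), p.IsCycle → M < p.length)
    (hG : ∀ (a : A) (x y : V), G.Adj x y → G.Adj (a • x) (a • y)) {N L : ℕ}
    (law : AltLaw A N L) {R : ℕ} (hR1 : 1 ≤ R) (hR : 2 * L * R ≤ M)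
    [DecidableEq V] [DecidableRel G.Adj] (W : Finset V) (hne : W.Nonempty) (δ : ℕ)
    (hW : ∀ x ∈ W, δ ≤ #{y ∈ W | G.Adj x y}) :
    (δ - 2) * (δ - 1) ^ (R - 1) ≤ KK N R * Nat.card (MulAction.orbitRel.Quotient A V) := by
  classical
  have : Finite (MulAction.toPermHom A V).range := inferInstance
  have : Fintype (MulAction.toPermHom A V).range := Fintype.ofFinite _
  have h := main_count (A := (MulAction.toPermHom A V).range) hg
    (by rintro ⟨_, a, rfl⟩ x y hxy; exact hG a x y hxy) (altLaw_range law) hR1 hR W hne δ hW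
  have e : Nat.card (MulAction.orbitRel.Quotient (MulAction.toPermHom A V).range V) =
      Nat.card (MulAction.orbitRel.Quotient A V) := by
    unfold MulAction.orbitRel.Quotient
    rw [orbitRel_range_eq]
  rw [e] at h
  exact h

theorem one_le_KK {N R L : ℕ} (law : AltLaw A N L) : 1 ≤ KK N R := by
  have := two_le_N law
  have h1 : 1 ≤ N - 1 := by omega
  have h2 : 1 ≤ N ^ 2 := Nat.one_le_pow _ _ (by omega)
  exact Nat.one_le_pow _ _ (by nlinarith)

theorem orbits_pos [Finite V] [Nonempty V] :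
    1 ≤ Nat.card (MulAction.orbitRel.Quotient A V) := by
  have : Finite (MulAction.orbitRel.Quotient A V) := Quotient.finite _
  have : Nonempty (MulAction.orbitRel.Quotient A V) := ⟨Quotient.mk _ (Classical.arbitrary V)⟩
  exact Nat.card_pos

/-- many edges -/
theorem edges_count [Finite V] [Nonempty V] {M : ℕ}
    (hg : ∀ (v : V) (p : G.Walk v v), p.IsCycle → M < p.length)
    (hG : ∀ (a : A) (x y : V), G.Adj x y → G.Adj (a • x) (a • y)) {N L : ℕ}
    (law : AltLaw A N L) {R : ℕ} (hR : 2 * L * R ≤ M) :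
    (G.edgeSet.ncard / Nat.card V) ^ R ≤
      2 * KK N R * Nat.card (MulAction.orbitRel.Quotient A V) := by
  classical
  have : Fintype V := Fintype.ofFinite V
  have hK := one_le_KK (R := R) law
  have ht := orbits_pos (V := V) (A := A)
  set t := Nat.card (MulAction.orbitRel.Quotient A V) with htdef
  have hKt : 1 ≤ KK N R * t := Nat.one_le_iff_ne_zero.mpr (by
    have : 0 < KK N R * t := Nat.mul_pos (by omega) (by omega)
    omega)
  have he : G.edgeSet.ncard = G.edgeFinset.card := by
    rw [← SimpleGraph.coe_edgeFinset, Set.ncard_coe_finset]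
  rw [he, Nat.card_eq_fintype_card]
  set q := G.edgeFinset.card / Fintype.card V with hq
  rcases Nat.lt_or_ge q 2 with hlt | hge
  · calc q ^ R ≤ 1 ^ R := Nat.pow_le_pow_left (by omega) R
      _ = 1 := one_pow R
      _ ≤ 2 * KK N R * t := by rw [mul_assoc]; omega
  · rcases Nat.eq_zero_or_pos R with h0 | hpos
    · subst h0
      rw [pow_zero, mul_assoc]; omega
    · have hepos : 0 < G.edgeFinset.card := by
        by_contra h
        have : G.edgeFinset.card = 0 := by omega
        rw [hq, this, Nat.zero_div] at hge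
        omega
      obtain ⟨W, hne, hW⟩ := core G hepos
      have h := main_count' hg hG law hpos hR W hne (q + 1) (fun x hx => by
        have h1 := hW x hx
        have h2 : q < #{y ∈ W | G.Adj x y} := Nat.div_lt_of_lt_mul h1
        omega)
      rw [← htdef] at h
      have e1 : q + 1 - 2 = q - 1 := by omega
      have e2 : q + 1 - 1 = q := by omega
      rw [e1, e2] at h
      calc q ^ R = q * q ^ (R - 1) := by
            rw [← pow_succ']
            congr 1; omega
        _ ≤ (2 * (q - 1)) * q ^ (R - 1) := Nat.mul_le_mul_right _ (by omega)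
        _ = 2 * ((q - 1) * q ^ (R - 1)) := by ring
        _ ≤ 2 * (KK N R * t) := Nat.mul_le_mul_left _ h
        _ = _ := by ring

/-- many edges, real form -/
theorem edges_real [Finite V] [Nonempty V] {k : ℕ} (hk : 1 ≤ k)
    (hg : ∀ (v : V) (p : G.Walk v v), p.IsCycle → 2 * k < p.length)
    (hG : ∀ (a : A) (x y : V), G.Adj x y → G.Adj (a • x) (a • y)) {N L : ℕ}
    (law : AltLaw A N L) {R : ℕ} (hR : L * R ≤ k) {c : ℝ} (hc : 0 < c)
    (he : c * (Nat.card V : ℝ) ^ (1 + 1 / (k : ℝ)) ≤ (G.edgeSet.ncard : ℝ)) :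
    (c / 2) ^ R * (Nat.card V : ℝ) ^ ((R : ℝ) / (k : ℝ)) ≤
      2 * (KK N R : ℝ) * (Nat.card (MulAction.orbitRel.Quotient A V) : ℝ) := by
  have hb := edges_count hg hG law (R := R) (by
    calc 2 * L * R = 2 * (L * R) := by ring
      _ ≤ 2 * k := Nat.mul_le_mul_left _ hR)
  have hK := one_le_KK (R := R) law
  have ht := orbits_pos (V := V) (A := A)
  set t := Nat.card (MulAction.orbitRel.Quotient A V) with htdef
  set n := Nat.card V with hn
  set e := G.edgeSet.ncard with hedef
  set K := KK N R with hKdef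
  have hnpos : 0 < n := Nat.card_pos
  have hn0 : (0:ℝ) < n := by exact_mod_cast hnpos
  have hk0 : (0:ℝ) < k := by exact_mod_cast hk
  have hK0 : (1:ℝ) ≤ K := by exact_mod_cast hK
  have ht0 : (1:ℝ) ≤ t := by exact_mod_cast ht
  set s : ℝ := (n : ℝ) ^ (1 / (k : ℝ)) with hs
  have hs0 : 0 < s := by positivity
  have hsR : (n : ℝ) ^ ((R : ℝ) / (k : ℝ)) = s ^ R := by
    rw [hs, ← Real.rpow_natCast, ← Real.rpow_mul hn0.le]
    congr 1
    ring
  have hes : c * (n * s) ≤ e := by
    have : (n : ℝ) ^ (1 + 1 / (k : ℝ)) = n * s := by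
      rw [Real.rpow_add hn0, Real.rpow_one]
    rw [← this]; exact he
  rw [hsR, ← mul_pow]
  have hrhs : (1:ℝ) ≤ 2 * (K : ℝ) * t := by nlinarith
  have hcs0 : 0 < c / 2 * s := by positivity
  by_cases h1 : c * s < 1
  · calc (c / 2 * s) ^ R ≤ 1 ^ R := pow_le_pow_left₀ hcs0.le (by nlinarith) R
      _ = 1 := one_pow R
      _ ≤ _ := hrhs
  · push Not at h1
    have h3 : c / 2 * s ≤ ((e / n : ℕ) : ℝ) := by
      have h4 : (e : ℝ) < n * (((e / n : ℕ) : ℝ) + 1) := by
        have : e < n * (e / n + 1) := Nat.lt_mul_div_succ e hnpos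
        exact_mod_cast this
      have h5 : c * s < ((e / n : ℕ) : ℝ) + 1 := by
        have : n * (c * s) < n * (((e / n : ℕ) : ℝ) + 1) := by
          calc n * (c * s) = c * (n * s) := by ring
            _ ≤ e := hes
            _ < _ := h4
        exact lt_of_mul_lt_mul_left this hn0.le
      have h6 : (1:ℝ) ≤ ((e / n : ℕ) : ℝ) := by
        have h7 : 0 < e / n := by
          have : (n:ℝ) ≤ e := by
            calc (n:ℝ) = n * 1 := by ring
              _ ≤ n * (c * s) := by gcongr
              _ = c * (n * s) := by ring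
              _ ≤ e := hes
          have : n ≤ e := by exact_mod_cast this
          exact Nat.div_pos this hnpos
        exact_mod_cast h7
      linarith
    calc (c / 2 * s) ^ R ≤ ((e / n : ℕ) : ℝ) ^ R := pow_le_pow_left₀ hcs0.le h3 R
      _ ≤ 2 * (K : ℝ) * t := by exact_mod_cast hb

/-- minimum degree -/
theorem degree_count [Finite V] [Nonempty V] {M : ℕ}
    (hg : ∀ (v : V) (p : G.Walk v v), p.IsCycle → M < p.length)
    (hG : ∀ (a : A) (x y : V), G.Adj x y → G.Adj (a • x) (a • y)) {N L : ℕ}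
    (law : AltLaw A N L) {R : ℕ} (hR : 2 * L * R ≤ M) {δ : ℕ} (hδ3 : 3 ≤ δ)
    (hδ : ∀ x : V, δ ≤ (G.neighborSet x).ncard) :
    (δ - 1) ^ R ≤ 2 * KK N R * Nat.card (MulAction.orbitRel.Quotient A V) := by
  classical
  have : Fintype V := Fintype.ofFinite V
  have hK := one_le_KK (R := R) law
  have ht := orbits_pos (V := V) (A := A)
  set t := Nat.card (MulAction.orbitRel.Quotient A V) with htdef
  rcases Nat.eq_zero_or_pos R with h0 | hpos
  · subst h0
    rw [pow_zero, mul_assoc]
    have : 0 < KK N 0 * t := Nat.mul_pos (by omega) (by omega)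
    omega
  · have h := main_count' hg hG law hpos hR univ univ_nonempty δ (fun x _ => by
      have h1 := hδ x
      have h2 : (G.neighborSet x).ncard = #{y ∈ (univ : Finset V) | G.Adj x y} := by
        rw [← Set.ncard_coe_finset]
        congr 1
        ext y
        simp
      rw [h2] at h1
      exact h1)
    rw [← htdef] at h
    calc (δ - 1) ^ R = (δ - 1) * (δ - 1) ^ (R - 1) := by
          rw [← pow_succ']
          congr 1; omega
      _ ≤ (2 * (δ - 2)) * (δ - 1) ^ (R - 1) := Nat.mul_le_mul_right _ (by omega)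
      _ = 2 * ((δ - 2) * (δ - 1) ^ (R - 1)) := by ring
      _ ≤ 2 * (KK N R * t) := Nat.mul_le_mul_left _ h
      _ = _ := by ring

/-- From the bound for `R = ⌊(g - 1) / (2 L)⌋` to a power of the number of vertices. -/
theorem degree_real {t n K δ g L : ℕ} (hL : 1 ≤ L) (hδ : 3 ≤ δ) (hg : 1 ≤ g) (hn : 1 ≤ n)
    (h : (δ - 1) ^ ((g - 1) / (2 * L)) ≤ K * t) {γ : ℝ}
    (hγ : 0 < γ) (hsmall : (n : ℝ) ≤ ((δ : ℝ) - 1) ^ (γ * g)) :
    (n : ℝ) ^ (1 / (2 * L * γ)) ≤ (K : ℝ) * ((δ : ℝ) - 1) * t := by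
  set R := (g - 1) / (2 * L) with hR
  set D : ℝ := (δ : ℝ) - 1 with hD
  have hD2 : 2 ≤ D := by
    have : (3:ℝ) ≤ δ := by exact_mod_cast hδ
    rw [hD]; linarith
  have hD0 : 0 < D := by linarith
  have hn0 : (0:ℝ) < n := by exact_mod_cast hn
  have hL0 : (0:ℝ) < L := by exact_mod_cast hL
  have hgR : g ≤ 2 * L * (R + 1) := by
    have h1 := Nat.div_add_mod (g - 1) (2 * L)
    have h2 := Nat.mod_lt (g - 1) (show 0 < 2 * L by omega)
    rw [← hR] at h1
    have h3 : 2 * L * (R + 1) = 2 * L * R + 2 * L := by ring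
    omega
  have h1 : (n : ℝ) ^ (1 / (2 * L * γ)) ≤ D ^ (R + 1) := by
    have h2 : (n : ℝ) ≤ D ^ (γ * (2 * L * (R + 1))) := by
      refine hsmall.trans (Real.rpow_le_rpow_of_exponent_le (by linarith) ?_)
      have : (g : ℝ) ≤ 2 * L * (R + 1) := by exact_mod_cast hgR
      exact mul_le_mul_of_nonneg_left this hγ.le
    calc (n : ℝ) ^ (1 / (2 * L * γ)) ≤ (D ^ (γ * (2 * L * (R + 1)))) ^ (1 / (2 * L * γ)) :=
          Real.rpow_le_rpow hn0.le h2 (by positivity)
      _ = D ^ (R + 1) := by
          rw [← Real.rpow_mul hD0.le, ← Real.rpow_natCast]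
          congr 1
          push_cast
          field_simp
  have h2 : D ^ R ≤ (K : ℝ) * t := by
    have h3 : ((δ - 1 : ℕ) : ℝ) = D := by
      rw [hD, Nat.cast_sub (by omega)]; simp
    rw [← h3]
    exact_mod_cast h
  calc (n : ℝ) ^ (1 / (2 * L * γ)) ≤ D ^ (R + 1) := h1
    _ = D ^ R * D := pow_succ _ _
    _ ≤ ((K : ℝ) * t) * D := by gcongr
    _ = _ := by ring

end

end Pool.Agent.TH468.GL
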