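import Pool.Agent.TH468.GL.Orbit

/-! The number of orbits. -/

set_option autoImplicit false

open Finset

namespace Pool.Agent.TH468.GL

open Pool.Agent.H268R2.LB

variable {V : Type*} {G : SimpleGraph V}

/-- A walk as a function gives `NW`. -/
theorem nw_of_nb {R : ℕ} {x : ℕ → V} (h : IsNB G R x) {j : ℕ} (hj0 : 0 < j) (hj : j ≤ R) :
    NW G j (x 0) (x 1) (x (j - 1)) (x j) := by
  have := NW.of_fun h.1 h.2 (i := 0) (j := j) hj0 hj
  simpa using this

theorem last_diff {f g : ℕ → V} {R i : ℕ} (hR : f R = g R) (hi : i ≤ R) (hne : f i ≠ g i) :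
    ∃ β, 1 ≤ β ∧ β ≤ R ∧ f β = g β ∧ f (β - 1) ≠ g (β - 1) := by
  obtain ⟨α, hα, h1, h2⟩ := first_diff (f := fun k => f (R - k)) (g := fun k => g (R - k))
    (p := R - i) (by simpa using hR) (by
      have e : R - (R - i) = i := by omega
      show f (R - (R - i)) ≠ g (R - (R - i))
      rw [e]; exact hne)
  refine ⟨R - α, by omega, by omega, h1, ?_⟩
  have e : R - α - 1 = R - (α + 1) := by omega
  rw [e]
  exact h2

/-- Nonbacktracking walks of the same length with the same ends agree. -/
theorem nb_unique {M : ℕ} (hg : ∀ (v : V) (p : G.Walk v v), p.IsCycle → M < p.length)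
    {R : ℕ} (hM : 2 * R ≤ M) {x y : ℕ → V} (hx : IsNB G R x) (hy : IsNB G R y)
    (h0 : x 0 = y 0) (hR : x R = y R) : ∀ i ≤ R, x i = y i := by
  intro i hi
  by_contra hne
  obtain ⟨β, hβ1, hβR, hβ, hβne⟩ := last_diff hR hi hne
  have w1 := nw_of_nb hx (by omega) hβR
  have w2 := (nw_of_nb hy (by omega) hβR).rev
  rw [← hβ, ← h0] at w2
  exact no_closed hg (NW.append w1 w2 hβne) (by omega)

theorem nb_snoc {n : ℕ} {x : ℕ → V} (h : IsNB G n x) {z : V} (hz : G.Adj (x n) z)
    (hne : 1 ≤ n → x (n - 1) ≠ z) : IsNB G (n + 1) (fun i => if i ≤ n then x i else z) := by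
  refine ⟨fun i hi => ?_, fun i hi => ?_⟩
  · show G.Adj (if i ≤ n then x i else z) (if i + 1 ≤ n then x (i + 1) else z)
    by_cases hin : i + 1 ≤ n
    · rw [if_pos (by omega), if_pos hin]
      exact h.1 i (by omega)
    · have : i = n := by omega
      subst this
      rw [if_pos (le_refl _), if_neg (by omega)]
      exact hz
  · show (if i ≤ n then x i else z) ≠ (if i + 2 ≤ n then x (i + 2) else z)
    by_cases hin : i + 2 ≤ n
    · rw [if_pos (by omega), if_pos hin]
      exact h.2 i hin
    · have : i = n - 1 := by omega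
      subst this
      rw [if_pos (by omega), if_neg (by omega)]
      exact hne (by omega)

theorem growthEx {M : ℕ} (hg : ∀ (v : V) (p : G.Walk v v), p.IsCycle → M < p.length)
    [DecidableEq V] [DecidableRel G.Adj] (W : Finset V) (δ : ℕ)
    (hW : ∀ x ∈ W, δ ≤ #{y ∈ W | G.Adj x y}) {v : V} (hv : v ∈ W) (F : Finset V) (f : ℕ)
    (hF : F.card ≤ f) :
    ∀ n, 2 * (n + 1) ≤ M → ∃ E : Finset V, (δ - f) * (δ - 1) ^ n ≤ E.card ∧ ∀ y ∈ E,
      ∃ x : ℕ → V, x 0 = v ∧ x (n + 1) = y ∧ IsNB G (n + 1) x ∧ x 1 ∉ F ∧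
        ∀ i ≤ n + 1, x i ∈ W := by
  intro n
  induction n with
  | zero =>
    intro _
    refine ⟨{y ∈ W | G.Adj v y} \ F, ?_, ?_⟩
    · rw [pow_zero, mul_one]
      have h1 := hW v hv
      have h2 := le_card_sdiff F ({y ∈ W | G.Adj v y} : Finset V)
      omega
    · intro y hy
      rw [mem_sdiff, mem_filter] at hy
      refine ⟨fun i => if i ≤ 0 then v else y, by simp, by simp, ?_, by simpa using hy.2, ?_⟩
      · refine nb_snoc (n := 0) (x := fun _ => v) ⟨fun i hi => by omega, fun i hi => by omega⟩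
          hy.1.2 (by omega)
      · intro i _
        show (if i ≤ 0 then v else y) ∈ W
        split_ifs
        · exact hv
        · exact hy.1.1
  | succ n ih =>
    intro hM
    obtain ⟨E, hE, hE'⟩ := ih (by omega)
    choose! X hX0 hXn hX hXF hXW using hE'
    refine ⟨E.biUnion (fun y => {z ∈ W | G.Adj y z ∧ z ≠ X y n}), ?_, ?_⟩
    · rw [card_biUnion]
      · calc (δ - f) * (δ - 1) ^ (n + 1) = (δ - f) * (δ - 1) ^ n * (δ - 1) := by ring
          _ ≤ E.card * (δ - 1) := Nat.mul_le_mul_right _ hE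
          _ = ∑ _y ∈ E, (δ - 1) := by simp
          _ ≤ _ := by
              refine sum_le_sum fun y hy => ?_
              have hyW : y ∈ W := by
                have := hXW y hy (n + 1) (le_refl _)
                rwa [hXn y hy] at this
              have h1 := hW y hyW
              have h2 : ({z ∈ W | G.Adj y z} : Finset V) ⊆
                  insert (X y n) ({z ∈ W | G.Adj y z ∧ z ≠ X y n} : Finset V) := by
                intro z hz
                rw [mem_filter] at hz
                by_cases hzc : z = X y n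
                · simp [hzc]
                · simp [hz.1, hz.2, hzc]
              have h3 := card_le_card h2
              have h4 := card_insert_le (X y n) ({z ∈ W | G.Adj y z ∧ z ≠ X y n} : Finset V)
              omega
      · intro y hy y' hy' hne
        rw [Function.onFun, Finset.disjoint_left]
        intro z hz hz'
        rw [mem_filter] at hz hz'
        have e1 := nb_snoc (hX y hy) (z := z) (by rw [hXn y hy]; exact hz.2.1)
          (fun _ => by simpa using hz.2.2.symm)
        have e2 := nb_snoc (hX y' hy') (z := z) (by rw [hXn y' hy']; exact hz'.2.1)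
          (fun _ => by simpa using hz'.2.2.symm)
        have := nb_unique hg hM e1 e2 (by simp [hX0 y hy, hX0 y' hy']) (by simp) (n + 1) (by omega)
        simp only [le_refl, if_true] at this
        rw [hXn y hy, hXn y' hy'] at this
        exact hne this
    · intro z hz
      rw [mem_biUnion] at hz
      obtain ⟨y, hy, hz⟩ := hz
      rw [mem_filter] at hz
      refine ⟨fun i => if i ≤ n + 1 then X y i else z, by simp [hX0 y hy], by simp,
        nb_snoc (hX y hy) (by rw [hXn y hy]; exact hz.2.1) (fun _ => by simpa using hz.2.2.symm),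
        by simpa using hXF y hy, ?_⟩
      intro i _
      show (if i ≤ n + 1 then X y i else z) ∈ W
      split_ifs with h
      · exact hXW y hy i h
      · exact hz.1

theorem nb_append {m n : ℕ} {x z : ℕ → V} (hx : IsNB G m x) (hz : IsNB G n z)
    (h : x m = z 0) (hne : 1 ≤ m → x (m - 1) ≠ z 1) :
    IsNB G (m + n) (fun i => if i ≤ m then x i else z (i - m)) := by
  refine ⟨fun i hi => ?_, fun i hi => ?_⟩
  · show G.Adj (if i ≤ m then x i else z (i - m)) (if i + 1 ≤ m then x (i + 1) else z (i + 1 - m))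
    rcases Nat.lt_trichotomy i m with hlt | heq | hgt
    · rw [if_pos (by omega), if_pos (by omega)]
      exact hx.1 i hlt
    · subst heq
      rw [if_pos (le_refl _), if_neg (by omega), h]
      have := hz.1 0 (by omega)
      have e : i + 1 - i = 0 + 1 := by omega
      rwa [e]
    · rw [if_neg (by omega), if_neg (by omega)]
      have := hz.1 (i - m) (by omega)
      have e : i + 1 - m = i - m + 1 := by omega
      rwa [e]
  · show (if i ≤ m then x i else z (i - m)) ≠ (if i + 2 ≤ m then x (i + 2) else z (i + 2 - m))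
    rcases Nat.lt_or_ge (i + 1) m with hlt | hge
    · rw [if_pos (by omega), if_pos (by omega)]
      exact hx.2 i (by omega)
    · rcases Nat.lt_or_ge i m with hlt' | hge'
      · have hj : m = i + 1 := by omega
        subst hj
        rw [if_pos (by omega), if_neg (by omega)]
        have e' : i + 2 - (i + 1) = 1 := by omega
        rw [e']
        have := hne (by omega)
        simpa using this
      · rcases Nat.eq_or_lt_of_le hge' with heq | hgt
        · subst heq
          rw [if_pos (le_refl _), if_neg (by omega), h]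
          have := hz.2 0 (by omega)
          have e : m + 2 - m = 0 + 2 := by omega
          rwa [e]
        · rw [if_neg (by omega), if_neg (by omega)]
          have := hz.2 (i - m) (by omega)
          have e : i + 2 - m = i - m + 2 := by omega
          rwa [e]

section action

variable {A : Type*} [Group A] [MulAction A V]

/-- The direction of the centres. -/
theorem exists_bad {M : ℕ} (hg : ∀ (v : V) (p : G.Walk v v), p.IsCycle → M < p.length)
    (hG : ∀ (a : A) (x y : V), G.Adj x y → G.Adj (a • x) (a • y)) {N L : ℕ}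
    (law : AltLaw A N L) (x : V) (r : ℕ) (hr : 2 * L * (2 * r) ≤ M) :
    ∃ c : V, ∀ (j : ℕ) (z : ℕ → V), 1 ≤ j → j ≤ r → IsNB G j z → z 0 = x → z 1 ≠ c →
      ¬ Cent A N (z j) x := by
  classical
  by_cases h : ∃ (j : ℕ) (z : ℕ → V), 1 ≤ j ∧ j ≤ r ∧ IsNB G j z ∧ z 0 = x ∧ Cent A N (z j) x
  · obtain ⟨j, z, hj1, hjr, hz, hz0, hc⟩ := h
    refine ⟨z 1, fun j' z' hj1' hjr' hz' hz0' hne hc' => ?_⟩
    refine no_facing hg hG law hz' hz (hz0'.trans hz0.symm) hne hj1' ?_ ?_ ?_
    · exact (Nat.mul_le_mul_left _ (by omega)).trans hr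
    · rw [hz0']; exact hc'
    · rw [hz0']; exact hc
  · refine ⟨x, fun j z hj1 hjr hz hz0 _ hc => h ⟨j, z, hj1, hjr, hz, hz0, hc⟩⟩

theorem two_le_N {N L : ℕ} (law : AltLaw A N L) : 2 ≤ N := by
  obtain ⟨hL, i, hi, -⟩ := law
  have h : i 0 ≠ i 1 := hi 0 (by omega)
  by_contra hlt
  have hN : N = 0 ∨ N = 1 := by omega
  rcases hN with h0 | h1
  · subst h0; exact (i 0).elim0
  · subst h1; exact h (Subsingleton.elim _ _)

variable [Fintype A]

/-- The number of orbits, from a set of vertices with large degrees. -/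
theorem main_count [Finite V] {M : ℕ}
    (hg : ∀ (v : V) (p : G.Walk v v), p.IsCycle → M < p.length)
    (hG : ∀ (a : A) (x y : V), G.Adj x y → G.Adj (a • x) (a • y)) {N L : ℕ}
    (law : AltLaw A N L) {R : ℕ} (hR1 : 1 ≤ R) (hR : 2 * L * R ≤ M)
    [DecidableEq V] [DecidableRel G.Adj] (W : Finset V) (hne : W.Nonempty) (δ : ℕ)
    (hW : ∀ x ∈ W, δ ≤ #{y ∈ W | G.Adj x y}) :
    (δ - 2) * (δ - 1) ^ (R - 1) ≤
      (2 * (N - 1) * N ^ 2) ^ (Nat.size R) * Nat.card (MulAction.orbitRel.Quotient A V) := by
  classical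
  have hL := law.1
  have hN := two_le_N law
  have h2R : 2 * R ≤ M := (Nat.mul_le_mul_right R (by omega : 2 ≤ 2 * L)).trans hR
  obtain ⟨v, hv, hmin⟩ := exists_min_image W (fun x => sg A x) hne
  set s₀ := sg A v with hs₀
  -- the walks
  obtain ⟨E, hE, hE'⟩ : ∃ E : Finset V, (δ - 2) * (δ - 1) ^ (R - 1) ≤ E.card ∧ ∀ y ∈ E,
      ∃ x : ℕ → V, x 0 = v ∧ x R = y ∧ IsNB G R x ∧ (∀ i ≤ R, x i ∈ W) ∧
        ∀ i < R, sg A (x i) ≤ N ^ 2 * s₀ := by
    rcases Nat.lt_or_ge R 2 with hlt | hge
    · have : R = 1 := by omega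
      subst this
      obtain ⟨E, hE, hE'⟩ := growthEx hg W δ hW hv ∅ 2 (by simp) 0 (by omega)
      refine ⟨E, hE, fun y hy => ?_⟩
      obtain ⟨x, h0, h1, h2, -, h3⟩ := hE' y hy
      refine ⟨x, h0, h1, h2, h3, fun i hi => ?_⟩
      have : i = 0 := by omega
      subst this
      rw [h0]
      exact Nat.le_mul_of_pos_left _ (by positivity)
    · obtain ⟨q, hq⟩ : ∃ q, R / 2 = q + 1 := ⟨R / 2 - 1, by omega⟩
      obtain ⟨r, hr⟩ : ∃ r, R - R / 2 = r + 1 := ⟨R - R / 2 - 1, by omega⟩
      have hqr : (q + 1) + (r + 1) = R := by omega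
      have hbad : ∀ (x : V) (s : ℕ), 2 * s ≤ R → ∃ c : V, ∀ (j : ℕ) (z : ℕ → V), 1 ≤ j → j ≤ s →
          IsNB G j z → z 0 = x → z 1 ≠ c → ¬ Cent A N (z j) x :=
        fun x s hs => exists_bad hg hG law x s ((Nat.mul_le_mul_left _ hs).trans hR)
      obtain ⟨c₁, hc₁⟩ := hbad v (q + 1) (by omega)
      obtain ⟨E₁, hE₁, hE₁'⟩ := growthEx hg W δ hW hv {c₁} 1 (by simp) q (by omega)
      choose! X hX0 hXn hX hXF hXW using hE₁'
      have hsec : ∀ u ∈ E₁, ∃ E₂ : Finset V, (δ - 2) * (δ - 1) ^ r ≤ E₂.card ∧ ∀ y ∈ E₂,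
          ∃ z : ℕ → V, z 0 = u ∧ z (r + 1) = y ∧ IsNB G (r + 1) z ∧ z 1 ≠ X u q ∧
            (∀ i ≤ r + 1, z i ∈ W) ∧ ∀ i < r + 1, sg A (z i) ≤ N ^ 2 * s₀ := by
        intro u hu
        have huW : u ∈ W := by
          have := hXW u hu (q + 1) (le_refl _)
          rwa [hXn u hu] at this
        have husg : sg A u ≤ N * s₀ := by
          have h1 := hc₁ (q + 1) (X u) (by omega) (le_refl _) (hX u hu) (hX0 u hu)
            (by simpa using hXF u hu)
          rw [hXn u hu] at h1
          exact sg_le_of_not_cent h1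
        obtain ⟨c₂, hc₂⟩ := hbad u r (by omega)
        obtain ⟨E₂, hE₂, hE₂'⟩ := growthEx hg W δ hW huW {X u q, c₂} 2 card_le_two r (by omega)
        refine ⟨E₂, hE₂, fun y hy => ?_⟩
        obtain ⟨z, h0, h1, h2, h3, h4⟩ := hE₂' y hy
        simp only [mem_insert, mem_singleton, not_or] at h3
        refine ⟨z, h0, h1, h2, h3.1, h4, fun i hi => ?_⟩
        rcases Nat.eq_zero_or_pos i with hi0 | hi0
        · subst hi0
          rw [h0]
          calc sg A u ≤ N * s₀ := husg
            _ ≤ N ^ 2 * s₀ := Nat.mul_le_mul_right _ (by nlinarith)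
        · have h5 := hc₂ i z hi0 (by omega)
            (by have := nb_sub h2 (i := 0) (j := i) (by omega); simpa using this) h0 h3.2
          calc sg A (z i) ≤ N * sg A u := sg_le_of_not_cent h5
            _ ≤ N * (N * s₀) := Nat.mul_le_mul_left _ husg
            _ = N ^ 2 * s₀ := by ring
      choose! E₂ hE₂ Z hZ0 hZn hZ hZ1 hZW hZs using hsec
      -- the combined walks
      have hcomb : ∀ u ∈ E₁, ∀ y ∈ E₂ u, ∃ x : ℕ → V, x 0 = v ∧ x (q + 1) = u ∧ x R = y ∧
          IsNB G R x ∧ (∀ i ≤ R, x i ∈ W) ∧ ∀ i < R, sg A (x i) ≤ N ^ 2 * s₀ := by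
        intro u hu y hy
        refine ⟨fun i => if i ≤ q + 1 then X u i else Z u y (i - (q + 1)), ?_, ?_, ?_, ?_, ?_, ?_⟩
        · simp [hX0 u hu]
        · simp [hXn u hu]
        · show (if R ≤ q + 1 then X u R else Z u y (R - (q + 1))) = y
          rw [if_neg (by omega)]
          have e : R - (q + 1) = r + 1 := by omega
          rw [e]
          exact hZn u hu y hy
        · have := nb_append (hX u hu) (hZ u hu y hy) (by rw [hXn u hu, hZ0 u hu y hy])
            (fun _ => by simpa using (hZ1 u hu y hy).symm)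
          rwa [hqr] at this
        · intro i hi
          show (if i ≤ q + 1 then X u i else Z u y (i - (q + 1))) ∈ W
          split_ifs with h
          · exact hXW u hu i h
          · exact hZW u hu y hy _ (by omega)
        · intro i hi
          show sg A (if i ≤ q + 1 then X u i else Z u y (i - (q + 1))) ≤ N ^ 2 * s₀
          split_ifs with h
          · rcases Nat.eq_zero_or_pos i with hi0 | hi0
            · subst hi0
              rw [hX0 u hu]
              exact Nat.le_mul_of_pos_left _ (by positivity)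
            · have h5 := hc₁ i (X u) hi0 h
                (by have := nb_sub (hX u hu) (i := 0) (j := i) (by omega); simpa using this)
                (hX0 u hu) (by simpa using hXF u hu)
              calc sg A (X u i) ≤ N * sg A v := sg_le_of_not_cent h5
                _ ≤ N ^ 2 * s₀ := Nat.mul_le_mul_right _ (by nlinarith)
          · exact hZs u hu y hy _ (by omega)
      refine ⟨E₁.biUnion E₂, ?_, ?_⟩
      · rw [card_biUnion]
        · calc (δ - 2) * (δ - 1) ^ (R - 1)
              = ((δ - 1) * (δ - 1) ^ q) * ((δ - 2) * (δ - 1) ^ r) := by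
                have e : R - 1 = q + 1 + r := by omega
                rw [e]; ring
            _ ≤ E₁.card * ((δ - 2) * (δ - 1) ^ r) := Nat.mul_le_mul_right _ hE₁
            _ = ∑ _u ∈ E₁, ((δ - 2) * (δ - 1) ^ r) := by simp
            _ ≤ _ := sum_le_sum fun u hu => hE₂ u hu
        · intro u hu u' hu' huu'
          rw [Function.onFun, Finset.disjoint_left]
          intro y hy hy'
          obtain ⟨x, x0, xq, xR, xnb, -⟩ := hcomb u hu y hy
          obtain ⟨x', x0', xq', xR', xnb', -⟩ := hcomb u' hu' y hy'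
          have := nb_unique hg h2R xnb xnb' (x0.trans x0'.symm) (xR.trans xR'.symm) (q + 1)
            (by omega)
          rw [xq, xq'] at this
          exact huu' this
      · intro y hy
        rw [mem_biUnion] at hy
        obtain ⟨u, hu, hy⟩ := hy
        obtain ⟨x, x0, -, h⟩ := hcomb u hu y hy
        exact ⟨x, x0, h⟩
  -- the orbits
  have : Fintype V := Fintype.ofFinite V
  have : Fintype (MulAction.orbitRel.Quotient A V) := Fintype.ofFinite _
  refine hE.trans ?_
  rw [Nat.card_eq_fintype_card]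
  set K := (2 * (N - 1) * N ^ 2) ^ (Nat.size R) with hK
  let f : V → MulAction.orbitRel.Quotient A V := Quotient.mk _
  have hfib : ∀ o ∈ E.image f, #{y ∈ E | f y = o} ≤ K := by
    intro o ho
    rw [mem_image] at ho
    obtain ⟨w, hw, rfl⟩ := ho
    obtain ⟨x, x0, xR, -, xW, -⟩ := hE' w hw
    refine orbit_bound' hg hG law s₀ (N ^ 2) (Nat.one_le_pow _ _ (by omega)) R hR v w _
      (hmin w (by rw [← xR]; exact xW R (le_refl _))) ?_
    intro y hy
    rw [mem_filter] at hy
    refine ⟨?_, ?_⟩
    · have h1 : (MulAction.orbitRel A V).r y w := Quotient.exact hy.2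
      rw [MulAction.orbitRel_apply] at h1
      obtain ⟨a, ha⟩ := h1
      exact ⟨a, ha⟩
    · obtain ⟨x, x0, xR, xnb, xW, xs⟩ := hE' y hy.1
      exact ⟨x, x0, xR, xnb, fun i hi => ⟨hmin _ (xW i hi.le), xs i hi⟩⟩
  calc E.card ≤ K * (E.image f).card := card_le_mul_card_image E K hfib
    _ ≤ K * Fintype.card (MulAction.orbitRel.Quotient A V) :=
        Nat.mul_le_mul_left _ (card_le_univ _)

end action

end Pool.Agent.TH468.GL
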