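import Pool.Agent.TH468.GL.Walk

/-! Counting the ends of nonbacktracking walks in one orbit, the action need not be free. -/

set_option autoImplicit false

open Finset

namespace Pool.Agent.TH468.GL

open Pool.Agent.H268R2.LB

variable {V : Type*} {G : SimpleGraph V} {A : Type*} [Group A] [MulAction A V] [Fintype A]

open Classical in
/-- the order of the stabiliser -/
noncomputable def sg (A : Type*) [Group A] [Fintype A] {V : Type*} [MulAction A V] (v : V) : ℕ :=
  #{a : A | a • v = v}

theorem sg_pos (v : V) : 0 < sg A v := by
  classical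
  rw [sg, card_pos]
  exact ⟨1, by simp⟩

theorem sg_smul (a : A) (v : V) : sg A (a • v) = sg A v := by
  classical
  rw [sg, sg]
  refine card_bij' (fun b _ => a⁻¹ * b * a) (fun b _ => a * b * a⁻¹) ?_ ?_ ?_ ?_
  · intro b hb
    simp only [mem_filter, mem_univ, true_and] at hb ⊢
    rw [mul_smul, mul_smul, hb, inv_smul_smul]
  · intro b hb
    simp only [mem_filter, mem_univ, true_and] at hb ⊢
    rw [mul_smul, mul_smul, inv_smul_smul, hb]
  · intro b _; group
  · intro b _; group

open Classical in
theorem card_fiber (w : V) (a₀ : A) : #{a : A | a • w = a₀ • w} = sg A w := by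
  rw [sg]
  refine card_bij' (fun b _ => a₀⁻¹ * b) (fun b _ => a₀ * b) ?_ ?_ ?_ ?_
  · intro b hb
    simp only [mem_filter, mem_univ, true_and] at hb ⊢
    rw [mul_smul, hb, inv_smul_smul]
  · intro b hb
    simp only [mem_filter, mem_univ, true_and] at hb ⊢
    rw [mul_smul, hb]
  · intro b _; group
  · intro b _; group

open Classical in
theorem card_smul_mem (w : V) (Y : Finset V) (hY : ∀ y ∈ Y, ∃ a : A, a • w = y) :
    #{a : A | a • w ∈ Y} = Y.card * sg A w := by
  rw [card_eq_sum_card_fiberwise (f := fun a : A => a • w) (t := Y)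
    (fun a ha => by simpa using ha), card_eq_sum_ones, sum_mul]
  refine sum_congr rfl fun y hy => ?_
  obtain ⟨a₀, rfl⟩ := hY y hy
  rw [one_mul, ← card_fiber w a₀, filter_filter]
  congr 1
  ext a
  simp only [mem_filter, mem_univ, true_and]
  constructor
  · exact fun h => h.2
  · exact fun h => ⟨h ▸ hy, h⟩

open Classical in
/-- If `y` is not a centre for `x` then its stabiliser is not much larger. -/
theorem sg_le_of_not_cent {N : ℕ} {x y : V} (h : ¬ Cent A N y x) : sg A y ≤ N * sg A x := by
  set S : Finset A := univ.filter (fun a => a • y = y) with hS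
  set I : Finset V := S.image (fun a => a • x) with hI
  have hIN : I.card ≤ N := by
    by_contra hlt
    push Not at hlt
    apply h
    obtain ⟨J, hJ, hJc⟩ := exists_subset_card_eq hlt.le
    have hex : ∀ u ∈ J, ∃ a : A, a • y = y ∧ a • x = u := by
      intro u hu
      have := hJ hu
      rw [hI, mem_image] at this
      obtain ⟨a, ha, hau⟩ := this
      rw [hS, mem_filter] at ha
      exact ⟨a, ha.2, hau⟩
    let e : Fin N ≃ J := (Fin.castOrderIso hJc.symm).toEquiv.trans J.equivFin.symm
    choose! a ha1 ha2 using hex
    refine ⟨fun k => a (e k), fun k => ha1 _ (e k).2, fun k k' hkk' heq => hkk' ?_⟩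
    rw [ha2 _ (e k).2, ha2 _ (e k').2] at heq
    exact e.injective (Subtype.ext heq)
  have h1 : S.card ≤ I.card * sg A x := by
    rw [card_eq_sum_card_image (fun a => a • x) S, card_eq_sum_ones, sum_mul]
    refine sum_le_sum fun u hu => ?_
    rw [mem_image] at hu
    obtain ⟨a₀, _, rfl⟩ := hu
    rw [one_mul, ← card_fiber x a₀]
    refine card_le_card fun a ha => ?_
    simp only [mem_filter, mem_univ, true_and] at ha ⊢
    exact ha.2
  calc sg A y = S.card := rfl
    _ ≤ I.card * sg A x := h1
    _ ≤ N * sg A x := Nat.mul_le_mul_right _ hIN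

theorem size_half {R : ℕ} (hpos : 0 < R) : Nat.size R = Nat.size (R / 2) + 1 := by
  rcases Nat.even_or_odd' R with ⟨k, hk | hk⟩
  · have hk0 : k ≠ 0 := by omega
    have : R / 2 = k := by omega
    rw [this, hk]
    have := Nat.size_bit (b := false) (n := k) (by simpa [Nat.bit] using hk0)
    simpa [Nat.bit] using this
  · have : R / 2 = k := by omega
    rw [this, hk]
    have := Nat.size_bit (b := true) (n := k) (by simp [Nat.bit])
    simpa [Nat.bit] using this

theorem nb_sub {R : ℕ} {x : ℕ → V} (h : IsNB G R x) {i j : ℕ} (hj : i + j ≤ R) :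
    IsNB G j (fun k => x (i + k)) :=
  ⟨fun k hk => h.1 (i + k) (by omega), fun k hk => h.2 (i + k) (by omega)⟩

/-- Ends of walks along vertices whose stabilisers have comparable orders. -/
theorem orbit_bound' {M : ℕ} (hg : ∀ (v : V) (p : G.Walk v v), p.IsCycle → M < p.length)
    (hG : ∀ (a : A) (x y : V), G.Adj x y → G.Adj (a • x) (a • y))
    {N L : ℕ} (law : AltLaw A N L) (s₀ H : ℕ) (hH : 1 ≤ H) :
    ∀ R : ℕ, 2 * L * R ≤ M → ∀ (v w : V) (Y : Finset V), s₀ ≤ sg A w →
      (∀ y ∈ Y, (∃ a : A, a • w = y) ∧ ∃ x : ℕ → V, x 0 = v ∧ x R = y ∧ IsNB G R x ∧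
        ∀ i < R, s₀ ≤ sg A (x i) ∧ sg A (x i) ≤ H * s₀) →
      Y.card ≤ (2 * (N - 1) * H) ^ (Nat.size R) := by
  classical
  obtain ⟨hL, i, hi, hlaw⟩ := law
  intro R
  induction R using Nat.strong_induction_on with
  | _ R ih =>
    intro hM v w Y hw hY
    rcases Nat.eq_zero_or_pos R with h0 | hpos
    · subst h0
      simp only [Nat.size_zero, pow_zero]
      rw [card_le_one]
      intro a ha b hb
      obtain ⟨-, x, hx0, hx1, -⟩ := hY a ha
      obtain ⟨-, y, hy0, hy1, -⟩ := hY b hb
      rw [← hx1, ← hy1, hx0, hy0]
    · by_contra hcon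
      push Not at hcon
      have hsz := size_half hpos
      set p := (R + 1) / 2 with hp
      have hRp : R - p = R / 2 := by omega
      choose! horb x hx0 hxR hx hsg using hY
      have hM' : 2 * L * (R / 2) ≤ M :=
        (Nat.mul_le_mul_left _ (Nat.div_le_self _ _)).trans hM
      have hlt : R / 2 < R := by omega
      set B := (2 * (N - 1) * H) ^ (Nat.size (R / 2)) with hB
      set S : Finset A := univ.filter (fun a => a • w ∈ Y) with hS
      have hScard : S.card = Y.card * sg A w := card_smul_mem w Y horb
      have hsw : 0 < sg A w := sg_pos w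
      obtain ⟨g, hgS, hgs, hgl⟩ := greedy S (fun a => x (a • w) p)
        (fun a => a⁻¹ • x (a • w) (R - p)) (H * sg A w * B)
        (by
          intro m
          have h1 : ({a ∈ S | x (a • w) p = m} : Finset A) ⊆
              univ.filter (fun a => a • w ∈ ({y ∈ Y | x y p = m} : Finset V)) := by
            intro a ha
            simp only [hS, mem_filter, mem_univ, true_and] at ha ⊢
            exact ha
          refine (card_le_card h1).trans ?_
          rw [card_smul_mem w _ (fun y hy => horb y (mem_filter.mp hy).1)]
          have h2 : #{y ∈ Y | x y p = m} ≤ B := by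
            refine ih (R / 2) hlt hM' m w _ hw ?_
            intro y hy
            rw [mem_filter] at hy
            refine ⟨horb y hy.1, fun k => x y (p + k), by simpa using hy.2, ?_, ?_, ?_⟩
            · have e : p + R / 2 = R := by omega
              show x y (p + R / 2) = y
              rw [e]; exact hxR y hy.1
            · exact nb_sub (hx y hy.1) (by omega)
            · intro k hk
              exact hsg y hy.1 (p + k) (by omega)
          calc #{y ∈ Y | x y p = m} * sg A w ≤ B * sg A w := Nat.mul_le_mul_right _ h2
            _ ≤ H * (B * sg A w) := Nat.le_mul_of_pos_left _ hH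
            _ = H * sg A w * B := by ring)
        (by
          intro u
          rcases (Finset.eq_empty_or_nonempty
            ({a ∈ S | a⁻¹ • x (a • w) (R - p) = u} : Finset A)) with hem | ⟨a₁, ha₁⟩
          · rw [hem]; simp
          · rw [mem_filter, hS, mem_filter] at ha₁
            have hu : sg A u = sg A (x (a₁ • w) (R - p)) := by
              rw [← ha₁.2, sg_smul]
            have hur := hsg _ ha₁.1.2 (R - p) (by omega)
            rw [← hu] at hur
            set Z : Finset V := (Y.image (fun y => x y (R / 2))).filter
              (fun z => ∃ a : A, a • u = z) with hZ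
            have h1 : ({a ∈ S | a⁻¹ • x (a • w) (R - p) = u} : Finset A) ⊆
                univ.filter (fun a => a • u ∈ Z) := by
              intro a ha
              simp only [hS, mem_filter, mem_univ, true_and, hZ, mem_image] at ha ⊢
              refine ⟨⟨a • w, ha.1, ?_⟩, ⟨a, rfl⟩⟩
              rw [← ha.2, smul_inv_smul, hRp]
            refine (card_le_card h1).trans ?_
            rw [card_smul_mem u Z (fun z hz => (mem_filter.mp hz).2)]
            have h2 : Z.card ≤ B := by
              refine ih (R / 2) hlt hM' v u _ hur.1 ?_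
              intro z hz
              rw [hZ, mem_filter, mem_image] at hz
              obtain ⟨⟨y, hy, hyz⟩, hz2⟩ := hz
              refine ⟨hz2, x y, hx0 y hy, hyz, ?_, ?_⟩
              · have := nb_sub (hx y hy) (i := 0) (j := R / 2) (by omega)
                simpa using this
              · intro k hk
                exact hsg y hy k (by omega)
            calc Z.card * sg A u ≤ B * (H * s₀) := Nat.mul_le_mul h2 hur.2
              _ ≤ B * (H * sg A w) := by
                  refine Nat.mul_le_mul_left _ (Nat.mul_le_mul_left _ hw)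
              _ = H * sg A w * B := by ring)
        N (by
          rw [hScard]
          rw [hsz, pow_succ, ← hB] at hcon
          calc 2 * (N - 1) * (H * sg A w * B) = (B * (2 * (N - 1) * H)) * sg A w := by ring
            _ < Y.card * sg A w := Nat.mul_lt_mul_of_pos_right hcon hsw)
      have hgY : ∀ k, g k • w ∈ Y := by
        intro k
        have := hgS k
        rw [hS, mem_filter] at this
        exact this.2
      obtain ⟨n, b, c, hn, hw⟩ := law_walk hG i hi hL hpos g (hlaw g) v w (fun k => x (g k • w))
        (fun k => hx _ (hgY k)) (fun k => hx0 _ (hgY k)) (fun k => hxR _ (hgY k))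
        (fun k k' h => hgs k k' h) (fun k k' h => hgl k k' h)
      exact no_closed hg hw (hn.trans hM)

end Pool.Agent.TH468.GL
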