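import Pool.Agent.H268R2.LB.Final

/-! Closed walks from a law, with different cut points; facing centres. -/

set_option autoImplicit false

open Finset

namespace Pool.Agent.TH468.GL

open Pool.Agent.H268R2.LB

variable {V : Type*} {G : SimpleGraph V}

theorem trans_step' {n R α α' K : ℕ} {s t : V} {f f' : ℕ → V} (hf : IsNB G R f)
    (hf' : IsNB G R f') (hα : α + 1 + α' ≤ R)
    (h : NW G n s t (f α) (f (α + 1))) (hn : n ≤ K + α + 1)
    (heq : f (R - α') = f' α') (hne : f (R - α' - 1) ≠ f' (α' + 1)) :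
    ∃ n', n' ≤ K + R + α' + 1 ∧ NW G n' s t (f' α') (f' (α' + 1)) := by
  have h1 := extend hf h (j := R - α') (by omega) (by omega)
  rw [heq] at h1
  have h2 := NW.step h1 (hf'.1 α' (by omega)) hne
  exact ⟨_, by omega, h2⟩

section action

variable {A : Type*} [Group A] [MulAction A V]

/-- The closed walk given by a law; the walks `x k` are separated before the position `c₁` from
the start, and after the position `c₂` seen from the end. -/
theorem law_walk' (hG : ∀ (a : A) (x y : V), G.Adj x y → G.Adj (a • x) (a • y))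
    {N L R : ℕ} (i : ℕ → Fin N) (hi : ∀ j, j + 1 < 2 * L → i j ≠ i (j + 1)) (hL : 1 ≤ L)
    (c₁ c₂ : ℕ) (hc₁ : 1 ≤ c₁) (hcR : c₁ ≤ R) (hc₂ : c₂ ≤ R) (hc : c₁ ≤ c₂ + 1) (g : Fin N → A)
    (law : ((List.range L).map fun j => g (i (2 * j)) * (g (i (2 * j + 1)))⁻¹).prod = 1)
    (v w : V) (x : Fin N → ℕ → V) (hx : ∀ k, IsNB G R (x k)) (hx0 : ∀ k, x k 0 = v)
    (hxR : ∀ k, x k R = g k • w)
    (hs : ∀ k k', k ≠ k' → x k c₁ ≠ x k' c₁)
    (hl : ∀ k k', k ≠ k' → (g k)⁻¹ • x k c₂ ≠ (g k')⁻¹ • x k' c₂) :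
    ∃ (n : ℕ) (b c : V), n ≤ 2 * L * R ∧ NW G n v b c v := by
  have hR : 1 ≤ R := hc₁.trans hcR
  let c : ℕ → A := fun h => ((List.range h).map fun j => g (i (2 * j)) * (g (i (2 * j + 1)))⁻¹).prod
  have hc0 : c 0 = 1 := by simp [c]
  have hcs : ∀ h, c (h + 1) = c h * (g (i (2 * h)) * (g (i (2 * h + 1)))⁻¹) := by
    intro h
    simp [c, List.range_succ]
  have hinj : ∀ a : A, Function.Injective (fun x : V => a • x) := fun a => MulAction.injective a
  let Fe : ℕ → ℕ → V := fun h k => c h • x (i (2 * h)) k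
  let Fo : ℕ → ℕ → V := fun h k => c (h + 1) • x (i (2 * h + 1)) (R - k)
  have hFe : ∀ h, IsNB G R (Fe h) := fun h => (hx _).map (hG (c h)) (hinj _)
  have hFo : ∀ h, IsNB G R (Fo h) := fun h => (hx _).rev.map (hG (c (h + 1))) (hinj _)
  -- even to odd
  have heo : ∀ h K, h < L → (∃ n α, α < c₁ ∧ n ≤ K + α + 1 ∧
      NW G n v (Fe 0 1) (Fe h α) (Fe h (α + 1))) →
      (∃ n α, α < R - c₂ ∧ n ≤ K + R + α + 1 ∧ NW G n v (Fe 0 1) (Fo h α) (Fo h (α + 1))) := by
    intro h K hh ⟨n, α, hα, hn, hw⟩
    have hne : i (2 * h) ≠ i (2 * h + 1) := hi (2 * h) (by omega)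
    obtain ⟨β, hβ, hβ1, hβ2⟩ := first_diff
      (f := fun k => (g (i (2 * h)))⁻¹ • x (i (2 * h)) (R - k))
      (g := fun k => (g (i (2 * h + 1)))⁻¹ • x (i (2 * h + 1)) (R - k)) (p := R - c₂)
      (by simp [hxR]) (by
        have e : R - (R - c₂) = c₂ := by omega
        show (g (i (2 * h)))⁻¹ • x (i (2 * h)) (R - (R - c₂)) ≠
          (g (i (2 * h + 1)))⁻¹ • x (i (2 * h + 1)) (R - (R - c₂))
        rw [e]
        exact hl _ _ hne)
    have hαβ : α + 1 + β ≤ R := by omega
    obtain ⟨n', hn', hw'⟩ := trans_step' (hFe h) (hFo h) hαβ hw hn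
      (by
        simp only [Fe, Fo]
        rw [hcs, mul_smul, mul_smul]
        congr 1
        rw [← hβ1, smul_inv_smul])
      (by
        simp only [Fe, Fo]
        rw [hcs, mul_smul, mul_smul]
        intro he
        apply hβ2
        have := MulAction.injective _ he
        have e : R - β - 1 = R - (β + 1) := by omega
        rw [e] at this
        rw [this, inv_smul_smul])
    exact ⟨n', β, hβ, hn', hw'⟩
  -- odd to even
  have hoe : ∀ h K, h + 1 < L → (∃ n α, α < R - c₂ ∧ n ≤ K + α + 1 ∧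
      NW G n v (Fe 0 1) (Fo h α) (Fo h (α + 1))) →
      (∃ n α, α < c₁ ∧ n ≤ K + R + α + 1 ∧
        NW G n v (Fe 0 1) (Fe (h + 1) α) (Fe (h + 1) (α + 1))) := by
    intro h K hh ⟨n, α, hα, hn, hw⟩
    have hne : i (2 * h + 1) ≠ i (2 * (h + 1)) := hi (2 * h + 1) (by omega)
    obtain ⟨β, hβ, hβ1, hβ2⟩ := first_diff
      (f := x (i (2 * h + 1))) (g := x (i (2 * (h + 1)))) (p := c₁)
      (by simp [hx0]) (hs _ _ hne)
    have hαβ : α + 1 + β ≤ R := by omega
    obtain ⟨n', hn', hw'⟩ := trans_step' (hFo h) (hFe (h + 1)) hαβ hw hn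
      (by
        simp only [Fe, Fo]
        have e : R - (R - β) = β := by omega
        rw [e, hβ1])
      (by
        simp only [Fe, Fo]
        have e : R - (R - β - 1) = β + 1 := by omega
        rw [e]
        intro he
        exact hβ2 (MulAction.injective _ he))
    exact ⟨n', β, hβ, hn', hw'⟩
  have hmain : ∀ h, h < L → ∃ n α, α < c₁ ∧ n ≤ 2 * h * R + α + 1 ∧
      NW G n v (Fe 0 1) (Fe h α) (Fe h (α + 1)) := by
    intro h
    induction h with
    | zero =>
      intro _
      refine ⟨1, 0, hc₁, by omega, ?_⟩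
      have h1 := NW.one (G := G) ((hFe 0).1 0 (by omega))
      have h2 : Fe 0 0 = v := by simp [Fe, hc0, hx0]
      rw [h2] at h1 ⊢
      exact h1
    | succ h ih =>
      intro hh
      have h1 := heo h _ (by omega) (ih (by omega))
      have h2 := hoe h _ hh h1
      obtain ⟨n, α, hα, hn, hw⟩ := h2
      exact ⟨n, α, hα, by nlinarith, hw⟩
  obtain ⟨L', rfl⟩ : ∃ L', L = L' + 1 := ⟨L - 1, by omega⟩
  obtain ⟨n, α, hα, hn, hw⟩ := heo L' _ (by omega) (hmain L' (by omega))
  have h1 := extend (hFo L') hw (j := R) (by omega) (le_refl _)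
  have h2 : Fo L' R = v := by
    have : c (L' + 1) = 1 := law
    simp [Fo, this, hx0]
  rw [h2] at h1
  have e : 2 * (L' + 1) * R = 2 * L' * R + 2 * R := by ring
  exact ⟨_, _, _, by omega, h1⟩

/-- `y` is a centre for `x`: the stabiliser of `y` moves `x` to at least `N` points. -/
def Cent (A : Type*) [Group A] [MulAction A V] (N : ℕ) (y x : V) : Prop :=
  ∃ a : Fin N → A, (∀ k, a k • y = y) ∧ ∀ k k', k ≠ k' → a k • x ≠ a k' • x

/-- Two nonbacktracking walks that start at `x` with different steps make up a walk. -/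
theorem nb_concat {j j' : ℕ} {z z' : ℕ → V} (h : IsNB G j z) (h' : IsNB G j' z')
    (h0 : z 0 = z' 0) (h1 : z 1 ≠ z' 1) :
    IsNB G (j + j') (fun i => if i ≤ j then z (j - i) else z' (i - j)) := by
  refine ⟨fun i hi => ?_, fun i hi => ?_⟩
  · show G.Adj (if i ≤ j then z (j - i) else z' (i - j))
      (if i + 1 ≤ j then z (j - (i + 1)) else z' (i + 1 - j))
    rcases Nat.lt_trichotomy i j with hlt | heq | hgt
    · rw [if_pos (by omega), if_pos (by omega)]
      have := (h.1 (j - (i + 1)) (by omega)).symm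
      have e : j - (i + 1) + 1 = j - i := by omega
      rwa [e] at this
    · subst heq
      rw [if_pos (le_refl _), if_neg (by omega), Nat.sub_self, h0]
      have := h'.1 0 (by omega)
      have e : i + 1 - i = 0 + 1 := by omega
      rwa [e]
    · rw [if_neg (by omega), if_neg (by omega)]
      have := h'.1 (i - j) (by omega)
      have e : i + 1 - j = i - j + 1 := by omega
      rwa [e]
  · show (if i ≤ j then z (j - i) else z' (i - j)) ≠
      (if i + 2 ≤ j then z (j - (i + 2)) else z' (i + 2 - j))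
    rcases Nat.lt_or_ge (i + 1) j with hlt | hge
    · rw [if_pos (by omega), if_pos (by omega)]
      have := h.2 (j - (i + 2)) (by omega)
      have e : j - (i + 2) + 2 = j - i := by omega
      rw [e] at this
      exact this.symm
    · rcases Nat.lt_or_ge i j with hlt' | hge'
      · -- i + 1 = j
        have hj : j = i + 1 := by omega
        subst hj
        rw [if_pos (by omega), if_neg (by omega)]
        have e : i + 1 - i = 1 := by omega
        have e' : i + 2 - (i + 1) = 1 := by omega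
        rw [e, e']
        exact h1
      · rcases Nat.eq_or_lt_of_le hge' with heq | hgt
        · subst heq
          rw [if_pos (le_refl _), if_neg (by omega), Nat.sub_self, h0]
          have := h'.2 0 (by omega)
          have e : j + 2 - j = 0 + 2 := by omega
          rwa [e]
        · rw [if_neg (by omega), if_neg (by omega)]
          have := h'.2 (i - j) (by omega)
          have e : i + 2 - j = i - j + 2 := by omega
          rwa [e]

/-- Facing centres are impossible. -/
theorem no_facing {M : ℕ} (hg : ∀ (v : V) (p : G.Walk v v), p.IsCycle → M < p.length)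
    (hG : ∀ (a : A) (x y : V), G.Adj x y → G.Adj (a • x) (a • y)) {N L : ℕ}
    (law : AltLaw A N L) {j j' : ℕ} {z z' : ℕ → V} (hz : IsNB G j z) (hz' : IsNB G j' z')
    (h0 : z 0 = z' 0) (h1 : z 1 ≠ z' 1) (hj : 1 ≤ j) (hM : 2 * L * (j + j') ≤ M)
    (hc : Cent A N (z j) (z 0)) (hc' : Cent A N (z' j') (z 0)) : False := by
  obtain ⟨hL, i, hi, hlaw⟩ := law
  obtain ⟨a, ha, ha'⟩ := hc
  obtain ⟨b, hb, hb'⟩ := hc'
  have hX := nb_concat hz hz' h0 h1
  set X : ℕ → V := fun i => if i ≤ j then z (j - i) else z' (i - j) with hXdef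
  have hX0 : X 0 = z j := by simp [hXdef]
  have hXj : X j = z 0 := by simp [hXdef]
  have hXr : X (j + j') = z' j' := by
    by_cases h : j' = 0
    · subst h; simp [hXdef, h0]
    · have e : j + j' - j = j' := by omega
      simp only [hXdef]
      rw [if_neg (by omega), e]
  obtain ⟨n, b1, c1, hn, hw⟩ := law_walk' hG (R := j + j') i hi hL j j hj (by omega) (by omega)
    (by omega) (fun k => a k * (b k)⁻¹) (hlaw (fun k => a k * (b k)⁻¹)) (z j) (z' j') (fun k i => a k • X i)
    (fun k => hX.map (hG (a k)) (MulAction.injective _))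
    (fun k => by simp only [hX0, ha])
    (fun k => by
      have hb1 : (b k)⁻¹ • z' j' = z' j' := by
        rw [inv_smul_eq_iff, hb]
      simp only [hXr, mul_smul, hb1])
    (fun k k' h => by
      show a k • X j ≠ a k' • X j
      rw [hXj]; exact ha' k k' h)
    (fun k k' h => by
      show (a k * (b k)⁻¹)⁻¹ • a k • X j ≠ (a k' * (b k')⁻¹)⁻¹ • a k' • X j
      rw [hXj, mul_inv_rev, inv_inv, mul_smul, inv_smul_smul, mul_inv_rev, inv_inv, mul_smul,
        inv_smul_smul]
      exact hb' k k' h)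
  exact no_closed hg hw (hn.trans hM)

end action

end Pool.Agent.TH468.GL
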